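import Pool.Agent.Q301.QM.Top
import Pool.Agent.H635R2.Ext

/-!
# Compact Hausdorff quasi-metrizable spaces are metrizable in ZF

In every model of Zermelo set theory (so in every model of ZF): if the topology of a compact
Hausdorff space is induced by a quasi-metric, then it is induced by a metric.

Outline of the proof (without choice, in an arbitrary model). Let `V k` be the set of the pairs
`(a, b)` such that `a` and `b` are in the ball of radius `2 ^ (-k)` around some point. A cluster
point argument for the sets of the points that witness a failure shows that every neighbourhood of
the diagonal contains some `V k`, and that for every `n` there is `k` with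
`V k ∘ V k ∘ V k ⊆ V n`. Taking the least such `k` we get a sequence of entourages that is
normal, and a metrization lemma (infimum of the lengths of chains, also proved in the model)
gives the metric.
-/

namespace Pool.Agent.Results.MP_dae09c_lc.Metrizable

open FirstOrder FirstOrder.Language
open Pool.Agent.Helper672.Plain (LSet Zermelo El)
open Pool.Agent.H635Amen (IsReals)
open Pool.Agent.H310Top (IsCompact IsHausdorff)
open Pool.Agent.H310Metric (IsMetric)
open Pool.Agent.Q301.QM

universe u

theorem result (M : Type u) [LSet.Structure M] [Zermelo M] (r : M) [Field (El r)]
    [LinearOrder (El r)] [IsStrictOrderedRing (El r)] (hr : IsReals r) (x t : M)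
    (d : El x → El x → El r) (hd : IsQuasiMetric d) (hi : Induces d t) (hc : IsCompact t x)
    (hh : IsHausdorff t x) : ∃ m : El x → El x → El r, IsMetric m ∧ Induces m t := by
  let _ := Pool.Agent.Helper672.Plain.toL M
  have : Pool.Agent.Helper672.ZFA.IsModel M :=
    Pool.Agent.Helper672.ZFA.H635.isModel_of_zermelo inferInstance
  exact main hr hd hi hc hh

end Pool.Agent.Results.MP_dae09c_lc.Metrizable
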